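import Pool.Agent.Helper21.CO.Root
import Pool.Agent.Helper45.CO.DivEnt
import Pool.Agent.Helper45.CO.Geo
import Pool.Agent.Helper45.CO.Grm
import Pool.Agent.Helper45.CO.Inf
import Pool.Agent.Helper45.CO.Irr
import Pool.Agent.Helper48.CO.Alg
import Pool.Agent.Helper64.CO.Int
import Pool.Agent.Helper72.CO.Cub
import Pool.Agent.Helper72.CO.Defs4
import Pool.Agent.Helper72.CO.Main

/-!
# The exterior Cauchy transform of a compact oval of a generic smooth cubic is not algebraic

A polynomial `P` of degree at most three in two real variables is given by its coefficient vector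
`k : Fin 10 → ℝ`, in the order `x³, x²y, xy², y³, x², xy, y², x, y, 1`.

* `val k x y` is the value of the polynomial, `form k` its homogenisation over `ℂ`,
* `Smooth k`: the projective closure in `ℂP²` is nonsingular,
* `cauchy Ω z = (1/π) ∫_Ω dA(ζ)/(z - ζ)`,
* `outer Ω`: the points outside of the closure of `Ω` whose component in the complement of the closure
  is unbounded,
* `AlgebraicCauchy Ω`: there is a nonzero `Q ∈ ℂ[z, u]` with `Q(z, cauchy Ω z) = 0` on `outer Ω`.

We show that for every smooth cubic whose leading form is not divisible by `x² + y²` (that is, not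
`k 0 = k 2` and `k 1 = k 3`, a condition which fails only on a linear subspace of codimension two)
the exterior Cauchy transform of the domain bounded by any compact oval is not algebraic.

Outline. Let `P*(z, w) = 0` be the cubic in the coordinates `z = x + iy`, `w = x - iy`; it is a cubic in
`w` over `ℂ(z)`, irreducible because the cubic curve is nonsingular. Let `S` be the Schwarz function,
the branch with `S = z̄` on the oval `Γ`. The Cauchy transform `F` of `Ω` continues holomorphically
from outside across `Γ`, and `S = F + G` with `G` holomorphic in a neighbourhood of the closure of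
`Ω`. If `F` were algebraic, the fields `ℂ(z)(F)` and `ℂ(z)(G)` would meet in `ℂ(z)` by Liouville's
theorem and some Galois theory would show that `S` is in one of the fields or that the other two
branches of the cubic are in one of the fields each. In each case one gets branches of the cubic,
holomorphic in all of `Ω` or in the whole exterior of `Ω`, and the integral of the holomorphic
differential `dz / P*_w` of the cubic over `Γ` would vanish. But this differential is positive
along `Γ`, because it is the time of the Hamiltonian flow of `P`.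
-/

set_option autoImplicit false

open Pool.Agent.Helper72.CO

namespace Pool.Agent.Results.MP_076080_ag.CubicOvals

/-- There is a nonzero polynomial `R` in the ten coefficients (with zero set `k 0 = k 2`,
`k 1 = k 3`) such that for every smooth cubic with `R k ≠ 0`, every compact connected component `Γ`
of the real zero set and every bounded component `Ω` of the complement of `Γ`, the exterior Cauchy
transform of `Ω` is not algebraic. -/
theorem result : ∃ R : MvPolynomial (Fin 10) ℝ, R ≠ 0 ∧
    (∀ k, MvPolynomial.eval k R = 0 ↔ k 0 = k 2 ∧ k 1 = k 3) ∧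
    ∀ k : Fin 10 → ℝ, MvPolynomial.eval k R ≠ 0 → Smooth k →
      ∀ (x y : ℂ) (Γ Ω : Set ℂ), val k x.re x.im = 0 →
        Γ = connectedComponentIn {z : ℂ | val k z.re z.im = 0} x → IsCompact Γ →
        y ∉ Γ → Ω = connectedComponentIn Γᶜ y → Bornology.IsBounded Ω →
        ¬ AlgebraicCauchy Ω := by
  have hR : ∀ k : Fin 10 → ℝ, MvPolynomial.eval k
      ((MvPolynomial.X 0 - MvPolynomial.X 2) ^ 2 + (MvPolynomial.X 1 - MvPolynomial.X 3) ^ 2 :
        MvPolynomial (Fin 10) ℝ) = (k 0 - k 2) ^ 2 + (k 1 - k 3) ^ 2 := by
    intro k
    simp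
  have hR0 : ∀ k : Fin 10 → ℝ, (k 0 - k 2) ^ 2 + (k 1 - k 3) ^ 2 = 0 ↔ k 0 = k 2 ∧ k 1 = k 3 := by
    intro k
    constructor
    · intro h
      constructor <;> nlinarith [sq_nonneg (k 0 - k 2), sq_nonneg (k 1 - k 3)]
    · rintro ⟨h1, h2⟩
      rw [h1, h2]
      ring
  refine ⟨(MvPolynomial.X 0 - MvPolynomial.X 2) ^ 2 + (MvPolynomial.X 1 - MvPolynomial.X 3) ^ 2,
    ?_, fun k => by rw [hR, hR0], ?_⟩
  · intro h
    have h1 := hR fun i => if i = 0 then 1 else 0
    rw [h] at h1
    simp at h1
  · intro k hk hs x y Γ Ω hx hΓ hΓc hy hΩ hΩb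
    rw [hR, Ne, hR0] at hk
    obtain ⟨a, b, c, d, hN, hPs, hP, hreg, hdb⟩ := cub k hs hk
    exact main_abs Pool.Agent.Helper45.CO.germ Pool.Agent.Helper45.CO.irr
      Pool.Agent.Helper48.CO.alg Pool.Agent.Helper45.CO.ent Pool.Agent.Helper45.CO.div
      Pool.Agent.Helper45.CO.inf Pool.Agent.Helper64.CO.int Pool.Agent.Helper45.CO.geo
      Pool.Agent.Helper21.CO.root hN hP hPs hreg hdb hx hΓ hΓc hy hΩ hΩb

end Pool.Agent.Results.MP_076080_ag.CubicOvals
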